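import Mathlib
import Pool.Agent.H78.RigidAlg
import Pool.Agent.H33.RL.Main

set_option autoImplicit false

universe u

namespace Pool.Agent.Results.MP_92f261_al.RigidLocalSymmetric

open CategoryTheory

/-- A finite-dimensional `k`-algebra `A` is symmetric if `A ≅ Hom_k(A, k)` as
`A`-`A`-bimodules; the bimodule structure of `Hom_k(A, k)` is `(a f b)(y) = f (b y a)`. -/
def IsSymmetricAlgebra (k A : Type u) [Field k] [Ring A] [Algebra k A] : Prop :=
  ∃ e : A ≃ₗ[k] Module.Dual k A, ∀ a x b y : A, e (a * x * b) y = e x (b * y * a)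

/-- **Negative answer to Q1 and Q2, sharp in the radical length.** Over every field `k` there is a
local symmetric (and selfinjective) algebra `A` of dimension 12 whose Jacobson radical `J`
satisfies `J⁴ = 0`, with a finitely generated nonprojective right `A`-module `M`, isomorphic to
`A / xA` for some `x` in `A`, such that `Ext¹_A(M, M) = 0`. Right `A`-modules are modules over
`Aᵐᵒᵖ`. (For `J³ = 0` there is no such module.)

The example (see `Pool/Agent/H78/RigidAlg.lean`): `A = k ⊕ V ⊕ V* ⊕ k` with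
`V = ⟨x, r₁, r₂, l₁, l₂⟩`, product `V × V → V*` given by a cyclically invariant trilinear form
with `x rᵢ = 0 = lᵢ x`, and `M = A / xA`. -/
theorem result (k : Type u) [Field k] :
    ∃ (A : Type u) (_ : Ring A) (_ : Algebra k A),
      Module.Finite k A ∧ Module.finrank k A = 12 ∧ IsLocalRing A ∧
      (∀ a ∈ Ring.jacobson A, ∀ b ∈ Ring.jacobson A, ∀ c ∈ Ring.jacobson A,
        ∀ d ∈ Ring.jacobson A, a * b * c * d = 0) ∧
      IsSymmetricAlgebra k A ∧ Module.Injective Aᵐᵒᵖ A ∧
      ∃ (x : A) (M : ModuleCat.{u} Aᵐᵒᵖ),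
        Nonempty (M ≃ₗ[Aᵐᵒᵖ] (A ⧸ Submodule.span Aᵐᵒᵖ {x})) ∧
        Module.Finite Aᵐᵒᵖ M ∧ ¬ Module.Projective Aᵐᵒᵖ M ∧
        Subsingleton (Abelian.Ext M M 1) :=
  Pool.Agent.H33.RL.main k

end Pool.Agent.Results.MP_92f261_al.RigidLocalSymmetric
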